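import Mathlib
import Pool.Agent.TH249.Fin
import Pool.Agent.TH249.Stmt

/-!
There are an AF algebra `A` and an automorphism `α` of order four of the scaled ordered group
`K_0(A)` such that no *-automorphism `φ` of `A` with `K_0(φ) = α` satisfies `φ⁴ = id`.
-/

set_option autoImplicit false

noncomputable section

namespace Pool.Agent.Results.MP_9b0829_an.OrderFourNoLift

open Pool.Agent.TH249 Pool.Agent.H188R3

theorem result : ∃ (A : Type) (_ : CStarAlgebra A), IsAF A ∧ ∃ α : K0Aut A,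
    IsScaled α ∧ HasOrder (K0Aut.fn α) 4 ∧
      ∀ φ : StarAut A, Induces φ α → (StarAut.fn φ)^[4] ≠ id := by
  obtain ⟨D⟩ := exists_data
  obtain ⟨E, _, j, h⟩ := exists_lim D.io D.io_inj
  obtain ⟨q, hq⟩ := exists_q D h
  obtain ⟨θ, hθ, -⟩ := exists_theta D h
  obtain ⟨f, hf⟩ := exists_Lam D h
  have hqθ : ∀ x, q (θ x) = q x := q_theta D h hq hθ
  have hfθ : ∀ x, f (θ x) = -f x := Lam_theta D h hf hθ
  have h4 := al_four h hq hθ hqθ
  have h2 := al_two_ne h hθ hqθ hf hfθ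
  refine ⟨TA q, inferInstance, isAF_A D h hq, K0.congr (Phi θ hqθ), ⟨?_, ?_⟩, ⟨?_, ?_⟩, ?_⟩
  · refine Set.Subset.antisymm ?_ ?_
    · rintro _ ⟨x, hx, rfl⟩
      exact K0.map_mem_pos _ hx
    · intro x hx
      refine ⟨(K0.congr (Phi θ hqθ)).symm x, ?_, (K0.congr (Phi θ hqθ)).apply_symm_apply x⟩
      exact K0.map_mem_pos ((Phi θ hqθ).symm : TA q →⋆ₐ[ℂ] TA q) hx
  · refine Set.Subset.antisymm ?_ ?_
    · rintro _ ⟨x, hx, rfl⟩
      exact K0.map_mem_scale _ hx
    · intro x hx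
      refine ⟨(K0.congr (Phi θ hqθ)).symm x, ?_, (K0.congr (Phi θ hqθ)).apply_symm_apply x⟩
      exact K0.map_mem_scale ((Phi θ hqθ).symm : TA q →⋆ₐ[ℂ] TA q) hx
  · funext x
    exact h4 x
  · intro k hk1 hk2 hk
    apply h2
    intro x
    have hk' : ∀ y, (⇑(K0.congr (Phi θ hqθ)))^[k] y = y := fun y => congrFun hk y
    interval_cases k
    · have h1 : ∀ y, K0.congr (Phi θ hqθ) y = y := hk'
      rw [h1, h1]
    · exact hk' x
    · have h1 : ∀ y, K0.congr (Phi θ hqθ) (K0.congr (Phi θ hqθ) (K0.congr (Phi θ hqθ) y)) = y :=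
        hk'
      have h5 : ∀ y, K0.congr (Phi θ hqθ) y = y := by
        intro y
        have h6 := h4 y
        rwa [h1] at h6
      rw [h5, h5]
  · intro φ hφ hφ4
    refine no_lift h hq hθ hqθ hf hfθ φ hφ ?_
    intro a
    exact congrFun hφ4 a

end Pool.Agent.Results.MP_9b0829_an.OrderFourNoLift
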